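import Pool.Agent.R690.Kos.Kod

set_option autoImplicit false

/-!
# The degree and the leading coefficient of a Kodiyalam polynomial can depend on the field

Let `J` be the Stanley-Reisner ideal of the six-vertex triangulation of the real projective plane,
in the variables `z_1,...,z_6`, let `m = z_1 ⋯ z_6`, and consider the ideal
`I = (x^2, m^4) + x m^2 J` in seven variables. For all `ℓ ≥ 0` and `i ≥ 3` its powers satisfy
`β_i(I^ℓ) = ℓ (β_i(J) + β_{i-1}(J))`. So `β_4(I^ℓ) = 0` over the rationals and `β_4(I^ℓ) = ℓ` in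
characteristic two, and `β_3(I^ℓ) = 6 ℓ` over the rationals and `β_3(I^ℓ) = 8 ℓ` in
characteristic two.
-/

namespace Pool.Agent.Results.MP_76aa63_al.DegreeDependsOnField

open Pool.Agent.R690.Kos Filter

/-- `P` is the `i`-th Kodiyalam polynomial of the ideal `J`: it agrees with `β_i(J^ℓ)` for all
large `ℓ`. -/
def IsKodiyalam {n : ℕ} {K : Type*} [Field K] (J : Ideal (MvPolynomial (Fin n) K)) (i : ℕ)
    (P : Polynomial ℚ) : Prop :=
  ∀ᶠ ℓ : ℕ in atTop, P.eval (ℓ : ℚ) = (betti (J ^ ℓ) i : ℚ)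

theorem four_rat (ℓ : ℕ) : betti (monIdeal ℚ G0 ^ ℓ) 4 = 0 := by
  rw [betti_pow ℚ ℓ 3 (by norm_num), sum_three, hm_four, hm10_rat]
  ring

theorem four_two (ℓ : ℕ) : betti (monIdeal (ZMod 2) G0 ^ ℓ) 4 = ℓ := by
  rw [betti_pow (ZMod 2) ℓ 3 (by norm_num), sum_three, hm_four, hm10_two]
  ring

theorem three_rat (ℓ : ℕ) : betti (monIdeal ℚ G0 ^ ℓ) 3 = 6 * ℓ := by
  rw [betti_pow ℚ ℓ 2 (by norm_num), sum_two, hm10_rat, hm_two_rat]
  ring

theorem three_two (ℓ : ℕ) : betti (monIdeal (ZMod 2) G0 ^ ℓ) 3 = 8 * ℓ := by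
  rw [betti_pow (ZMod 2) ℓ 2 (by norm_num), sum_two, hm10_two, hm_two_two]
  ring

open Polynomial in
/-- There is a monomial ideal (generated by the monomials with exponent vectors in a finite set `G`)
whose fourth Kodiyalam polynomial is `0` over the rationals and `t` over the field with two
elements, and whose third Kodiyalam polynomial is `6 t` over the rationals and `8 t` over the field
with two elements. -/
theorem result : ∃ (n : ℕ) (G : Set (Fin n →₀ ℕ)), G.Finite ∧
    IsKodiyalam (monIdeal ℚ G) 4 0 ∧ IsKodiyalam (monIdeal (ZMod 2) G) 4 X ∧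
    IsKodiyalam (monIdeal ℚ G) 3 (C 6 * X) ∧ IsKodiyalam (monIdeal (ZMod 2) G) 3 (C 8 * X) := by
  refine ⟨7, G0, G0_finite, ?_, ?_, ?_, ?_⟩
  · refine Eventually.of_forall fun ℓ => ?_
    rw [four_rat]; simp
  · refine Eventually.of_forall fun ℓ => ?_
    rw [four_two]; simp
  · refine Eventually.of_forall fun ℓ => ?_
    rw [three_rat]; simp
  · refine Eventually.of_forall fun ℓ => ?_
    rw [three_two]; simp

end Pool.Agent.Results.MP_76aa63_al.DegreeDependsOnField
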